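import Pool.Agent.LE.StmtsQZ
import Pool.Agent.Helper51_LQD.GAP
import Pool.Agent.Helper54_LIR.FTB
import Pool.Agent.Helper49_LQF.KFT

/-!
# LQZ, row IXU: the smallest momentum, initially
-/

set_option autoImplicit false

open MeasureTheory ProbabilityTheory

open scoped ENNReal BigOperators NNReal Matrix ComplexConjugate

noncomputable section

namespace Pool.Agent.LE.QZ.H63

open Pool.Agent.Anderson hiding box mem_box card_box
open Pool.Agent.Loc Pool.Agent.Mob Pool.Agent.Helper54.Bal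
  Pool.Agent.Helper96.EXP Pool.Agent.BED
open Pool.Agent.LE.MN Pool.Agent.LE.CL Pool.Agent.LE.IR Pool.Agent.LE.QD Pool.Agent.LE.QF

variable {d M : ℕ} [NeZero M]

theorem chi_one_sub : ‖(1 : ℂ) - (ZMod.stdAddChar (1 : ZMod M) : ℂ)‖ ≤ 2 * Real.pi / M := by
  have hM : (0 : ℝ) < M := Nat.cast_pos.2 (Nat.pos_of_ne_zero (NeZero.ne M))
  have h1 : (ZMod.stdAddChar (1 : ZMod M) : ℂ) =
      Complex.exp (Complex.I * ((2 * Real.pi / M : ℝ) : ℂ)) := by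
    have := ZMod.stdAddChar_coe (N := M) 1
    rw [Int.cast_one] at this
    rw [this]
    congr 1
    push_cast
    ring
  rw [h1, norm_sub_rev]
  refine (Real.norm_exp_I_mul_ofReal_sub_one_le (x := 2 * Real.pi / M)).trans ?_
  rw [Real.norm_eq_abs, abs_of_nonneg (by positivity)]

theorem es_step (k : Tor d M) (i : Fin d) : |es k - es (k + Pi.single i 1)| ≤ 4 * Real.pi / M := by
  rw [QD.H51.es_eq, QD.H51.es_eq, ← Finset.sum_sub_distrib, Finset.sum_eq_single i]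
  · have h1 : (ZMod.stdAddChar ((k + Pi.single i 1 : Tor d M) i) : ℂ) =
        ZMod.stdAddChar (k i) * ZMod.stdAddChar (1 : ZMod M) := by
      rw [Pi.add_apply, Pi.single_eq_same, AddChar.map_add_eq_mul]
    have h2 : 2 * (ZMod.stdAddChar (k i) : ℂ).re -
        2 * (ZMod.stdAddChar ((k + Pi.single i 1 : Tor d M) i) : ℂ).re =
        2 * ((ZMod.stdAddChar (k i) : ℂ) * (1 - ZMod.stdAddChar (1 : ZMod M))).re := by
      rw [h1, mul_sub, mul_one, Complex.sub_re]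
      ring
    rw [h2, abs_mul, abs_of_pos (by norm_num : (0 : ℝ) < 2)]
    have h3 := Complex.abs_re_le_norm ((ZMod.stdAddChar (k i) : ℂ) *
      (1 - ZMod.stdAddChar (1 : ZMod M)))
    rw [norm_mul, QD.H51.chi_norm, one_mul] at h3
    have h4 := chi_one_sub (M := M)
    have h5 : 4 * Real.pi / M = 2 * (2 * Real.pi / M) := by ring
    rw [h5]
    linarith
  · intro j _ hj
    rw [Pi.add_apply, Pi.single_eq_of_ne hj, add_zero, sub_self]
  · intro h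
    exact absurd (Finset.mem_univ i) h

theorem card_tor' : (Fintype.card (Tor d M) : ℝ) = (M : ℝ) ^ d := by
  have : Fintype.card (Tor d M) = M ^ d := by
    show Fintype.card (Fin d → ZMod M) = M ^ d
    rw [Fintype.card_fun, ZMod.card, Fintype.card_fin]
  rw [this, Nat.cast_pow]

theorem qf_Dl {X : Type} [Fintype X] [DecidableEq X] (K : Matrix X X ℝ) (f : X → ℝ) :
    qf (Dl K) f = ∑ a, ∑ b, K a b * (f a * f a - f a * f b) := by
  unfold QF.qf Dl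
  refine Finset.sum_congr rfl fun a _ => ?_
  rw [Matrix.sub_mulVec, Pi.sub_apply, Matrix.mulVec_diagonal, Matrix.mulVec, dotProduct,
    mul_sub, Finset.mul_sum, Finset.sum_mul, Finset.mul_sum, ← Finset.sum_sub_distrib]
  refine Finset.sum_congr rfl fun b _ => ?_
  ring

/-- the form at the character -/
theorem qf_ec (ral : RalStmt) {ζ : ℂ} (hζ : 0 < ζ.im) (p : Tor d M) :
    qf (Dl (KK (rs (0 : Tor d M → ℝ) ζ))) (fun x => (ec p x).re) +
      qf (Dl (KK (rs (0 : Tor d M → ℝ) ζ))) (fun x => (ec p x).im) =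
        (M : ℝ) ^ d * (kf ζ (0 : Tor d M) - kf ζ p) := by
  rw [qf_Dl, qf_Dl, ← Finset.sum_add_distrib]
  have h1 : ∀ a : Tor d M, (∑ b, KK (rs (0 : Tor d M → ℝ) ζ) a b *
        ((ec p a).re * (ec p a).re - (ec p a).re * (ec p b).re) +
      ∑ b, KK (rs (0 : Tor d M → ℝ) ζ) a b *
        ((ec p a).im * (ec p a).im - (ec p a).im * (ec p b).im)) = kf ζ (0 : Tor d M) - kf ζ p := by
    intro a
    rw [← Finset.sum_add_distrib, ← Equiv.sum_comp (Equiv.addLeft a)]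
    unfold kf
    rw [← Finset.sum_sub_distrib]
    refine Finset.sum_congr rfl fun z _ => ?_
    rw [Equiv.coe_addLeft, QF.H49.ec_zero, Complex.one_re]
    have h2 : KK (rs (0 : Tor d M → ℝ) ζ) a (a + z) = kk ζ z := by
      unfold KK kk
      rw [QF.H49.rs_diff ral hζ (x' := 0) (y' := z) (by abel)]
    have h3 : (ec p a).re * (ec p a).re + (ec p a).im * (ec p a).im = 1 := by
      rw [← Complex.normSq_apply, Complex.normSq_eq_norm_sq, IR.H54.ec_norm, one_pow]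
    rw [h2, IR.H54.ec_add, Complex.mul_re, Complex.mul_im]
    linear_combination (kk ζ z - kk ζ z * (ec p z).re) * h3
  rw [Finset.sum_congr rfl fun a _ => h1 a, Finset.sum_const, Finset.card_univ, nsmul_eq_mul,
    card_tor']

theorem inv_norm_le {ζ : ℂ} (hζ : 0 < ζ.im) (e : ℝ) : ‖((e : ℂ) - ζ)⁻¹‖ ≤ 1 / ζ.im := by
  rw [norm_inv, inv_eq_one_div]
  apply one_div_le_one_div_of_le hζ
  have := Complex.abs_im_le_norm ((e : ℂ) - ζ)
  rw [Complex.sub_im, Complex.ofReal_im, zero_sub, abs_neg, abs_of_pos hζ] at this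
  exact this

theorem inv_ne {ζ : ℂ} (hζ : 0 < ζ.im) (e : ℝ) : ((e : ℂ) - ζ) ≠ 0 := by
  intro h
  have := congrArg Complex.im h
  rw [Complex.sub_im, Complex.ofReal_im, zero_sub, Complex.zero_im] at this
  linarith

theorem inv_diff {ζ : ℂ} (hζ : 0 < ζ.im) {e f c : ℝ} (h : |e - f| ≤ c) :
    ‖((e : ℂ) - ζ)⁻¹ - ((f : ℂ) - ζ)⁻¹‖ ≤ c / ζ.im * ‖((e : ℂ) - ζ)⁻¹‖ := by
  have n1 := inv_ne hζ e
  have n2 := inv_ne hζ f
  have e1 : ((e : ℂ) - ζ)⁻¹ - ((f : ℂ) - ζ)⁻¹ =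
      ((f - e : ℝ) : ℂ) * ((e : ℂ) - ζ)⁻¹ * ((f : ℂ) - ζ)⁻¹ := by
    rw [inv_sub_inv n1 n2, div_eq_mul_inv, mul_inv]
    push_cast
    ring
  rw [e1, norm_mul, norm_mul, Complex.norm_real, Real.norm_eq_abs, abs_sub_comm]
  have e3 := inv_norm_le hζ f
  have hc : 0 ≤ c := (abs_nonneg _).trans h
  calc |e - f| * ‖((e : ℂ) - ζ)⁻¹‖ * ‖((f : ℂ) - ζ)⁻¹‖
      ≤ c * ‖((e : ℂ) - ζ)⁻¹‖ * (1 / ζ.im) := by gcongr
    _ = c / ζ.im * ‖((e : ℂ) - ζ)⁻¹‖ := by ring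

theorem sum_aux {X : Type} [Fintype X] (a : X → ℂ) (σ : X ≃ X) {β : ℝ}
    (h : ∀ k, ‖a k - a (σ k)‖ ≤ β * ‖a k‖) :
    ∑ k, ‖a k‖ ^ 2 - ∑ k, (a k * conj (a (σ k))).re ≤ β ^ 2 / 2 * ∑ k, ‖a k‖ ^ 2 := by
  have shift : ∑ k, ‖a (σ k)‖ ^ 2 = ∑ k, ‖a k‖ ^ 2 := Equiv.sum_comp σ fun k => ‖a k‖ ^ 2
  have key : ∑ k, ‖a k‖ ^ 2 - ∑ k, (a k * conj (a (σ k))).re =
      (1 / 2) * ∑ k, ‖a k - a (σ k)‖ ^ 2 := by
    have e5 : ∀ k, ‖a k - a (σ k)‖ ^ 2 = ‖a k‖ ^ 2 +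
        ‖a (σ k)‖ ^ 2 - 2 * (a k * conj (a (σ k))).re := by
      intro k
      rw [← Complex.normSq_eq_norm_sq, Complex.normSq_sub, Complex.normSq_eq_norm_sq,
        Complex.normSq_eq_norm_sq]
    rw [Finset.sum_congr rfl fun k _ => e5 k, Finset.sum_sub_distrib, Finset.sum_add_distrib,
      shift, ← Finset.mul_sum]
    ring
  rw [key, Finset.mul_sum, Finset.mul_sum]
  refine Finset.sum_le_sum fun k _ => ?_
  have h7 : ‖a k - a (σ k)‖ ^ 2 ≤ (β * ‖a k‖) ^ 2 := pow_le_pow_left₀ (norm_nonneg _) (h k) 2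
  rw [mul_pow] at h7
  linarith

theorem kf_sub (kft : KftStmt) {ζ : ℂ} (hζ : 0 < ζ.im) (p : Tor d M) {c : ℝ}
    (hc : ∀ k : Tor d M, |es k - es (k + p)| ≤ c) :
    kf ζ (0 : Tor d M) - kf ζ p ≤ (c / ζ.im) ^ 2 / 2 * kf ζ (0 : Tor d M) := by
  obtain ⟨h1, -⟩ := kft d M ζ hζ
  have hM : (0 : ℝ) < M := Nat.cast_pos.2 (Nat.pos_of_ne_zero (NeZero.ne M))
  have hMd : (0 : ℝ) < (M : ℝ) ^ d := pow_pos hM d
  have hcast : ((M : ℂ) ^ d) = (((M : ℝ) ^ d : ℝ) : ℂ) := by push_cast; rfl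
  have kp : ∀ q : Tor d M, kf ζ q = (∑ k : Tor d M, (((es k : ℂ) - ζ)⁻¹ *
      conj (((es (k + q) : ℂ) - ζ)⁻¹)).re) / (M : ℝ) ^ d := by
    intro q
    rw [h1, kh, hcast, Complex.div_ofReal_re, Complex.re_sum]
  have k0 : kf ζ (0 : Tor d M) =
      (∑ k : Tor d M, ‖((es k : ℂ) - ζ)⁻¹‖ ^ 2) / (M : ℝ) ^ d := by
    rw [kp 0]
    congr 1
    refine Finset.sum_congr rfl fun k _ => ?_
    rw [add_zero, Complex.mul_conj', ← Complex.ofReal_pow, Complex.ofReal_re]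
  have key := sum_aux (fun k : Tor d M => ((es k : ℂ) - ζ)⁻¹) (Equiv.addRight p)
    (β := c / ζ.im) (fun k => inv_diff hζ (hc k))
  rw [kp p, k0, ← sub_div, mul_div_assoc', div_le_div_iff_of_pos_right hMd]
  exact key

theorem ixu (ral : RalStmt) (kft : KftStmt) : IxuStmt := by
  intro d M _ ζ τ i hζ hτ h1
  have hM : (0 : ℝ) < M := Nat.cast_pos.2 (Nat.pos_of_ne_zero (NeZero.ne M))
  have hs : ∀ f : Tor d M → ℝ, qf (τ • Dl (KK (rs (0 : Tor d M → ℝ) ζ))) f =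
      τ * qf (Dl (KK (rs (0 : Tor d M → ℝ) ζ))) f := by
    intro f
    unfold QF.qf
    rw [Finset.mul_sum]
    refine Finset.sum_congr rfl fun a _ => ?_
    rw [Matrix.smul_mulVec, Pi.smul_apply, smul_eq_mul]
    ring
  rw [hs, hs, ← mul_add, qf_ec ral hζ]
  have h2 := kf_sub (M := M) kft hζ (Pi.single i 1 : Tor d M) (fun k => es_step k i)
  have hMd : (0 : ℝ) < (M : ℝ) ^ d := by positivity
  have hpi : 8 * Real.pi ^ 2 ≤ 100 := by
    have := Real.pi_lt_d2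
    have h0 := Real.pi_pos
    nlinarith
  have h3 : (4 * Real.pi / M / ζ.im) ^ 2 / 2 = 8 * Real.pi ^ 2 / (M * ζ.im) ^ 2 := by
    rw [div_div, div_pow]
    ring
  rw [h3] at h2
  calc τ * ((M : ℝ) ^ d * (kf ζ (0 : Tor d M) - kf ζ (Pi.single i 1 : Tor d M)))
      ≤ τ * ((M : ℝ) ^ d * (8 * Real.pi ^ 2 / (M * ζ.im) ^ 2 * kf ζ (0 : Tor d M))) :=
        mul_le_mul_of_nonneg_left (mul_le_mul_of_nonneg_left h2 hMd.le) hτ.le
    _ = (τ * kf ζ (0 : Tor d M)) * ((8 * Real.pi ^ 2) * (M : ℝ) ^ d / (M * ζ.im) ^ 2) := by ring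
    _ = (8 * Real.pi ^ 2) * (M : ℝ) ^ d / (M * ζ.im) ^ 2 := by rw [h1, one_mul]
    _ ≤ 100 * (M : ℝ) ^ d / (M * ζ.im) ^ 2 :=
        div_le_div_of_nonneg_right (mul_le_mul_of_nonneg_right hpi hMd.le) (sq_nonneg _)

end Pool.Agent.LE.QZ.H63
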